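import Pool.Agent.T9h56.EQ.Far

/-!
# Boyd's conjecture away from equidistribution

Boyd's set is the set of the Mahler measures of the integer polynomials in any number of variables;
call a subset of it tame if it is closed in `ℝ`, has no elements in an interval `(1, 1 + δ)`, and has
finite Cantor-Bendixson rank below every bound.

A polynomial `F (x_0, …, x_k)`, where `k ≥ 0` is arbitrary, is called admissible if it has positive
degree `d` in `x_0`, is squarefree, and has no divisor free of `x_0` but the units. For a point `t` of
the torus of the variables `x_1, …, x_k` let `zeros F t` be the empirical measure of the `d` zeros of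
`F (·, x_1, …, x_k)` in the Riemann sphere, and `law F` the law of this random measure, `t` being
uniformly distributed. (Measures on the sphere are given by their integrals of the continuous
functions, and laws by the integrals of the bounded continuous functions of measures.)

1. For every closed set `𝒬` of laws which does not contain the point mass at the uniform measure
   `haar` of the unit circle, the set `measures 𝒬` of the Mahler measures of the admissible
   polynomials with law in `𝒬` is tame.
2. For every continuous function `f` on the sphere and `ε > 0` there is `C` with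
   `deg_{x_0} F ≤ C (1 + log M(F))` for all admissible `F`, in any number of variables, with
   `discrepancy F f ≥ ε`, where `discrepancy F f = ∫ |zeros F t f - haar f| dt`. The Mahler measures
   of these polynomials form a tame set.
3. Let `V` be an open set of the sphere, `δ` smaller than the measure of `V` for `haar`. The Mahler
   measures of the admissible polynomials such that the mean over `t` of the proportion of the zeros
   in `V` is at most `δ`, form a tame set. (For `δ = 0`: the polynomials all of whose zeros in `x_0`
   lie in a closed set which does not contain the unit circle, for instance in `ℝ`, for almost all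
   points of the torus of the other variables. For one variable such theorems are due to Langevin.)
4. If `F_n` are admissible and `M(F_n)` converges to a number which is not in Boyd's set, or to `1`
   with `M(F_n) ≠ 1` for all `n`, then `discrepancy F_n f → 0` for all `f`. So the admissible
   counterexamples to Boyd's conjecture, or to Lehmer's problem, are equidistributed.
5. On the other hand every admissible `F` has `discrepancy F f > 0` for some `f`, so that it belongs to
   one of the classes in 1 and 2.

The polynomials have to be squarefree here: with factors `(x_0 - 1) ^ n` allowed, 1 would contain the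
whole problem for the admissible polynomials.

Proof. The discriminant for `x_0` is a nonzero integer polynomial, so its logarithm has nonnegative
mean over the torus. The zeros are folded into the unit disc by `z ↦ 1 / conj z`; the energy of the
folded zeros controls their power sums, and gives the degree bound in 2. By the degree bound the
vectors of the coefficients are compact as in `FewPowersOfOneVariable` and `SumsOfHermitianSquares`;
the law and the nonvanishing of the discriminant are preserved in the limit. For the rank one uses the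
companion `∑ A_j y ^ j` of `∑ A_j x_0 ^ j`.
-/

set_option autoImplicit false

open MeasureTheory Filter Topology OnePoint

namespace Pool.Agent.Results.MP_6d22ea_nt.AwayFromEquidistribution

noncomputable section

/-- Value of an integer polynomial in `k` variables at the torus point
`(exp (2 π i t_1), …, exp (2 π i t_k))`. -/
def value {k : ℕ} (F : MvPolynomial (Fin k) ℤ) (t : Fin k → ℝ) : ℂ :=
  MvPolynomial.eval (fun j : Fin k => Complex.exp (2 * (Real.pi : ℂ) * Complex.I * ((t j : ℝ) : ℂ)))
    (MvPolynomial.map (Int.castRingHom ℂ) F)

/-- The Mahler measure of an integer polynomial in `k` variables. -/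
def mahler {k : ℕ} (F : MvPolynomial (Fin k) ℤ) : ℝ :=
  Real.exp (∫ t in Set.Icc (0 : Fin k → ℝ) 1, Real.log ‖value F t‖)

/-- Boyd's set: the Mahler measures of the nonzero integer polynomials in `k ≥ 1` variables. -/
def boyd : Set ℝ := {x : ℝ | ∃ k : ℕ, 1 ≤ k ∧ ∃ F : MvPolynomial (Fin k) ℤ, F ≠ 0 ∧ x = mahler F}

/-- Subsets of Boyd's set which are closed, have a gap above `1` and have finite Cantor-Bendixson rank
below every bound. -/
def Tame (S : Set ℝ) : Prop :=
  S ⊆ boyd ∧ IsClosed S ∧ (∃ δ : ℝ, 0 < δ ∧ ∀ x ∈ S, x = 1 ∨ 1 + δ ≤ x) ∧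
    ∀ B : ℝ, ∃ m : ℕ, ∀ x ∈ derivedSet^[m] S, B ≤ x

/-- The evaluation of polynomials in `x_1, …, x_k` at `(exp (2 π i t_1), …, exp (2 π i t_k))`. -/
def evaluation {k : ℕ} (t : Fin k → ℝ) : MvPolynomial (Fin k) ℤ →+* ℂ :=
  (MvPolynomial.eval fun j : Fin k =>
    Complex.exp (2 * (Real.pi : ℂ) * Complex.I * ((t j : ℝ) : ℂ))).comp
      (MvPolynomial.map (Int.castRingHom ℂ))

/-- The polynomial `F (x_0, exp (2 π i t_1), …, exp (2 π i t_k))` in the variable `x_0`. -/
def slice {k : ℕ} (F : MvPolynomial (Fin (k + 1)) ℤ) (t : Fin k → ℝ) : Polynomial ℂ :=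
  (MvPolynomial.finSuccEquiv ℤ k F).map (evaluation t)

/-- The mean of `f` over the `d = deg_{x_0} F` zeros of the slice in the Riemann sphere, counted with
multiplicity; `∞` is a zero of multiplicity `d` minus the degree of the slice. -/
def mean {k : ℕ} (F : MvPolynomial (Fin (k + 1)) ℤ) (t : Fin k → ℝ) (f : OnePoint ℂ → ℝ) : ℝ :=
  (((slice F t).roots.map fun z : ℂ => f (z : OnePoint ℂ)).sum +
    ((F.degreeOf 0 : ℝ) - (slice F t).natDegree) * f ∞) / F.degreeOf 0

/-- The mean of `f` over the unit circle. -/
def circleMean (f : OnePoint ℂ → ℝ) : ℝ :=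
  ∫ s in (0 : ℝ)..1, f ((Complex.exp (2 * (Real.pi : ℂ) * Complex.I * (s : ℂ)) : ℂ) : OnePoint ℂ)

/-- The functionals on the continuous functions on the sphere, with the topology of pointwise
convergence; they contain the probability measures with the weak topology. -/
abbrev Functionals : Type := C(OnePoint ℂ, ℝ) → ℝ

/-- The empirical measure of the zeros of the slice. -/
def zeros {k : ℕ} (F : MvPolynomial (Fin (k + 1)) ℤ) (t : Fin k → ℝ) : Functionals :=
  fun f => mean F t f

/-- The uniform measure of the unit circle. -/
def haar : Functionals := fun f => circleMean f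

/-- The functionals on the bounded continuous functions of functionals, with the topology of pointwise
convergence; they contain the laws of random measures. -/
abbrev Laws : Type := BoundedContinuousFunction Functionals ℝ → ℝ

/-- The law of the empirical measure of the zeros, the torus having its uniform measure. -/
def law {k : ℕ} (F : MvPolynomial (Fin (k + 1)) ℤ) : Laws :=
  fun Ψ => ∫ t in Set.Icc (0 : Fin k → ℝ) 1, Ψ (zeros F t)

/-- The point mass at the uniform measure of the unit circle. -/
def pointMass : Laws := fun Ψ => Ψ haar

/-- Positive degree in `x_0`, squarefree, no divisor free of `x_0` but the units. -/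
def Admissible {k : ℕ} (F : MvPolynomial (Fin (k + 1)) ℤ) : Prop :=
  0 < F.degreeOf 0 ∧ (∀ Q : MvPolynomial (Fin (k + 1)) ℤ, Q ∣ F → Q.degreeOf 0 = 0 → IsUnit Q) ∧
    Squarefree F

/-- The Mahler measures of the admissible polynomials with law in `𝒬`, in any number of variables. -/
def measures (𝒬 : Set Laws) : Set ℝ :=
  {x | ∃ (k : ℕ) (F : MvPolynomial (Fin (k + 1)) ℤ), Admissible F ∧ law F ∈ 𝒬 ∧ x = mahler F}

/-- The mean over the torus of the distance of the empirical measure and the uniform measure. -/
def discrepancy {k : ℕ} (F : MvPolynomial (Fin (k + 1)) ℤ) (f : C(OnePoint ℂ, ℝ)) : ℝ :=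
  ∫ t in Set.Icc (0 : Fin k → ℝ) 1, |zeros F t f - haar f|

theorem result :
    (∀ 𝒬 : Set Laws, IsClosed 𝒬 → pointMass ∉ 𝒬 → Tame (measures 𝒬)) ∧
    (∀ (f : C(OnePoint ℂ, ℝ)) (ε : ℝ), 0 < ε →
      (∃ C : ℝ, ∀ (k : ℕ) (F : MvPolynomial (Fin (k + 1)) ℤ), Admissible F →
        ε ≤ discrepancy F f → (F.degreeOf 0 : ℝ) ≤ C * (1 + Real.log (mahler F))) ∧
      Tame {x | ∃ (k : ℕ) (F : MvPolynomial (Fin (k + 1)) ℤ), Admissible F ∧
        ε ≤ discrepancy F f ∧ x = mahler F}) ∧
    (∀ V : Set (OnePoint ℂ), IsOpen V → ∀ δ : ℝ, δ < circleMean (V.indicator 1) →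
      Tame {x | ∃ (k : ℕ) (F : MvPolynomial (Fin (k + 1)) ℤ), Admissible F ∧
        ∫ t in Set.Icc (0 : Fin k → ℝ) 1, mean F t (V.indicator 1) ≤ δ ∧ x = mahler F}) ∧
    (∀ (k : ℕ → ℕ) (F : ∀ n, MvPolynomial (Fin (k n + 1)) ℤ) (μ : ℝ), (∀ n, Admissible (F n)) →
      Tendsto (fun n => mahler (F n)) atTop (𝓝 μ) →
      (μ ∉ boyd ∨ (μ = 1 ∧ ∀ n, mahler (F n) ≠ 1)) →
      ∀ f : C(OnePoint ℂ, ℝ), Tendsto (fun n => discrepancy (F n) f) atTop (𝓝 0)) ∧
    (∀ (k : ℕ) (F : MvPolynomial (Fin (k + 1)) ℤ), Admissible F →
      ∃ f : C(OnePoint ℂ, ℝ), 0 < discrepancy F f) :=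
  ⟨fun 𝒬 hc hp => Pool.Agent.T9h56.EQ.tame_MSet 𝒬 hc hp,
    fun f ε hε => ⟨Pool.Agent.T9h56.EQ.deg_test f ε hε, Pool.Agent.T9h56.EQ.tame_test f ε hε⟩,
    fun V hV δ hδ => Pool.Agent.T9h56.EQ.tame_open V hV δ hδ,
    fun k F μ hF hlim hμ f => Pool.Agent.T9h56.EQ.seq_outside k F hF μ hlim hμ f,
    fun _ _ hF => Pool.Agent.T9h56.EQ.exists_far hF⟩

end

end Pool.Agent.Results.MP_6d22ea_nt.AwayFromEquidistribution
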