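import Pool.Agent.T9h56.MT.Fin

/-!
# Mahler measures of the polynomials with few powers of one of the variables

For a family `𝒮` of finite sets of natural numbers let `T 𝒮` be the set of the Mahler measures of
the nonzero integer polynomials `F(x_0, x_1, …, x_k)`, in any number of variables, of any degrees
and with arbitrary coefficients, such that

* the exponents of `x_0` in `F` lie in one set of the family, and
* no divisor of `F` but the units is free of `x_0` (that is, the coefficients of `F` as a polynomial
  in `x_0` are coprime).

1. If the sets of the family have at most `N` elements, then `T 𝒮` is closed. For instance the set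
   of the measures of the polynomials with at most `N` different powers of `x_0` (all sets with at
   most `N` elements), and the set of the measures of the polynomials of degree at most `m` in `x_0`
   (one set, `{0, …, m}`) are closed.
2. There is `δ > 0`, depending only on `N`, such that all elements of such a set `T 𝒮` are `1` or at
   least `1 + δ` (a gap as in Lehmer's conjecture).
3. Boyd's set, the set of all Mahler measures of integer polynomials, is the union over `N` of the
   closed sets `T N` of the measures of the polynomials with at most `N` powers of `x_0`; the measure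
   of a polynomial with `l` monomials is in `T (2 l)`.

Proof. A sum of `N` exponentials with different integral frequencies has logarithmic mean at least
`log max |c_i| - c(N)`. So the vectors of the coefficients of `x_0 ^ s` have bounded height, and the
compactness theorem of the starting files for pairs (`H261R2.CM`), applied with common exponents,
gives one primitive vector of polynomials whose specialisations are these vectors up to a common
factor; the measure of this factor tends to one, by the theorem on pairs applied to `∑ C_i y ^ i` and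
`∑ C_i (y z) ^ i`. The exponents of `x_0` are written in a basis of the group of germs which they
generate, and one new variable keeps the exponents of one member of the sequence.
-/

set_option autoImplicit false

namespace Pool.Agent.Results.MP_6d22ea_nt.FewPowersOfOneVariable

noncomputable section

/-- Value of an integer polynomial in `k` variables at the torus point
`(exp (2 π i t_1), …, exp (2 π i t_k))`. -/
def value {k : ℕ} (F : MvPolynomial (Fin k) ℤ) (t : Fin k → ℝ) : ℂ :=
  MvPolynomial.eval (fun j : Fin k => Complex.exp (2 * (Real.pi : ℂ) * Complex.I * ((t j : ℝ) : ℂ)))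
    (MvPolynomial.map (Int.castRingHom ℂ) F)

/-- The Mahler measure of an integer polynomial in `k` variables. -/
def mahler {k : ℕ} (F : MvPolynomial (Fin k) ℤ) : ℝ :=
  Real.exp (∫ t in Set.Icc (0 : Fin k → ℝ) 1, Real.log ‖value F t‖)

/-- The Mahler measures of the nonzero integer polynomials `F` in the variables `x_0, …, x_k` (any
`k ≥ 0`), such that the exponents of `x_0` in `F` lie in a member of the family `𝒮`, and such that
every divisor of `F` which is free of `x_0` is a unit. -/
def T (𝒮 : Set (Finset ℕ)) : Set ℝ :=
  {x : ℝ | ∃ (k : ℕ) (F : MvPolynomial (Fin (k + 1)) ℤ), F ≠ 0 ∧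
    (∃ S ∈ 𝒮, ∀ d ∈ F.support, d 0 ∈ S) ∧
    (∀ Q : MvPolynomial (Fin (k + 1)) ℤ, Q ∣ F → Q.degreeOf 0 = 0 → IsUnit Q) ∧ x = mahler F}

theorem result :
    (∀ (N : ℕ) (𝒮 : Set (Finset ℕ)), (∀ S ∈ 𝒮, S.card ≤ N) → IsClosed (T 𝒮)) ∧
    (∀ N : ℕ, ∃ δ : ℝ, 0 < δ ∧ ∀ 𝒮 : Set (Finset ℕ), (∀ S ∈ 𝒮, S.card ≤ N) →
      ∀ x ∈ T 𝒮, x = 1 ∨ 1 + δ ≤ x) ∧
    (∀ (k : ℕ) (F : MvPolynomial (Fin k) ℤ), F ≠ 0 →
      mahler F ∈ T {S | S.card ≤ 2 * F.support.card}) ∧
    (⋃ N : ℕ, T {S | S.card ≤ N}) =
      {x : ℝ | ∃ k : ℕ, 1 ≤ k ∧ ∃ F : MvPolynomial (Fin k) ℤ, F ≠ 0 ∧ x = mahler F} := by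
  have h3 : ∀ (k : ℕ) (F : MvPolynomial (Fin k) ℤ), F ≠ 0 →
      mahler F ∈ T {S | S.card ≤ 2 * F.support.card} :=
    fun k F hF => Pool.Agent.T9h56.MT.exhaust F hF
  refine ⟨fun N 𝒮 h => Pool.Agent.T9h56.MT.closed_TS N 𝒮 h, fun N => Pool.Agent.T9h56.MT.gap_TS N,
    h3, ?_⟩
  ext x
  rw [Set.mem_iUnion]
  constructor
  · rintro ⟨N, k, F, hF, _, _, hx⟩
    exact ⟨k + 1, by omega, F, hF, hx⟩
  · rintro ⟨k, _, F, hF, rfl⟩
    exact ⟨_, h3 k F hF⟩

end

end Pool.Agent.Results.MP_6d22ea_nt.FewPowersOfOneVariable
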