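import Pool.Agent.T9h56.SQ.Boyd

/-!
# Mahler measures of sums of Hermitian squares and of traces of positive semidefinite matrices

A family of integer polynomials in `k` variables (`k` is arbitrary throughout) is called coprime if
all its common divisors have Mahler measure one (so common monomial and cyclotomic factors are
allowed). The values of polynomials are taken on the torus.

1. Heights. Let `V ⊆ ℂ ^ N` be a closed cone (closed and stable under multiplication by complex
   numbers) and let `ψ_1, …, ψ_m` be continuous metrics (`ψ (a c) = |a| ψ (c)`, positive outside `0`).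
   The set of the vectors of heights `(∫ log ψ_j (P_1(t), …, P_N(t)) dt)_j`, `P` running over the
   coprime vectors of polynomials in any number of variables with values in `V`, is closed in `ℝ ^ m`.
   For the zero set `V` of homogeneous polynomials with integer coefficients these are the heights
   of all points of a projective variety over the fields `ℚ(x_1, …, x_k)`, `k` arbitrary.
2. Forms. Let `Φ` be a polynomial with integer coefficients in `c_1, …, c_N` and their conjugates,
   bihomogeneous of positive degree, without zeros on `V` outside `0`. The Mahler measures of the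
   polynomials `Φ (P_1, …, P_N, P_1*, …, P_N*)`, where `P` is coprime with values in `V` and
   `P_i* (x) = P_i (1/x)`, form a closed set, of finite Cantor-Bendixson rank below every bound.
3. Traces. `traces` is the set of the Mahler measures of `tr A`, where `A` is a square matrix of any
   size with coprime entries whose values are complex multiples of positive semidefinite Hermitian
   matrices (for instance a positive semidefinite matrix of Laurent polynomials, multiplied by a
   monomial). It is closed, has no element below `2` except `1`, and has finite Cantor-Bendixson rank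
   below every bound. It contains the measures of all sums of coprime polynomials which are
   nonnegative on the torus (diagonal matrices).
4. Squares. The set `squares` of the Mahler measures of all sums of Hermitian squares
   `P_1 P_1* + ⋯ + P_N P_N*` of coprime polynomials, `N` arbitrary, is closed and contained in
   `traces`.
5. Gram determinants. `squares` is also the set of the numbers `exp ∫ log det (A(t) A(t)*) dt` (the
   squares of the Fuglede-Kadison determinants) of the rectangular matrices `A` of any size with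
   coprime maximal minors; for an arbitrary `A` of full rank this number is `M(D)^2 q` with `D` the
   greatest common divisor of the maximal minors and `q` in `squares`.

Proof. Primitive vectors of one-variable polynomials of bounded height are, along an ultrafilter and
up to common factors of measure tending to one, specialisations of one primitive vector (file
`T9h56/MT/Vec`, which rests on the compactness theorem for pairs of the starting files); the formula
of Boyd and Lawton holds for the heights of vectors. By the inequality between the arithmetic and the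
geometric mean the number of the nonzero diagonal entries in 3, and of the nonzero squares in 4, is at
most the measure, so that the number of terms is bounded along convergent sequences. The rank is
bounded because `(∑ P_i u ^ i) ^ d` is a coprime companion of bounded height (starting file
`FiniteRank`).
-/

set_option autoImplicit false

open scoped ComplexOrder

namespace Pool.Agent.Results.MP_6d22ea_nt.SumsOfHermitianSquares

noncomputable section

/-- Value of an integer polynomial in `k` variables at the torus point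
`(exp (2 π i t_1), …, exp (2 π i t_k))`. -/
def value {k : ℕ} (F : MvPolynomial (Fin k) ℤ) (t : Fin k → ℝ) : ℂ :=
  MvPolynomial.eval (fun j : Fin k => Complex.exp (2 * (Real.pi : ℂ) * Complex.I * ((t j : ℝ) : ℂ)))
    (MvPolynomial.map (Int.castRingHom ℂ) F)

/-- The Mahler measure of an integer polynomial in `k` variables. -/
def mahler {k : ℕ} (F : MvPolynomial (Fin k) ℤ) : ℝ :=
  Real.exp (∫ t in Set.Icc (0 : Fin k → ℝ) 1, Real.log ‖value F t‖)

/-- Boyd's set: the Mahler measures of the nonzero integer polynomials in `k ≥ 1` variables. -/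
def boyd : Set ℝ := {x : ℝ | ∃ k : ℕ, 1 ≤ k ∧ ∃ F : MvPolynomial (Fin k) ℤ, F ≠ 0 ∧ x = mahler F}

/-- All common divisors have Mahler measure one. -/
def Coprime {k : ℕ} {ι : Type} (P : ι → MvPolynomial (Fin k) ℤ) : Prop :=
  ∀ R : MvPolynomial (Fin k) ℤ, (∀ i, R ∣ P i) → mahler R = 1

/-- A closed cone in `ℂ ^ N`. -/
def IsCone {N : ℕ} (V : Set (Fin N → ℂ)) : Prop :=
  IsClosed V ∧ ∀ (z : ℂ) (c : Fin N → ℂ), c ∈ V → z • c ∈ V

/-- A continuous metric on `ℂ ^ N`. -/
def IsMetric {N : ℕ} (ψ : (Fin N → ℂ) → ℝ) : Prop :=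
  Continuous ψ ∧ (∀ (a : ℂ) (c : Fin N → ℂ), ψ (a • c) = ‖a‖ * ψ c) ∧ ∀ c, c ≠ 0 → 0 < ψ c

/-- The logarithmic height of a vector of polynomials for the metric `ψ`. -/
def height {N : ℕ} (ψ : (Fin N → ℂ) → ℝ) {k : ℕ} (P : Fin N → MvPolynomial (Fin k) ℤ) : ℝ :=
  ∫ t in Set.Icc (0 : Fin k → ℝ) 1, Real.log (ψ fun i => value (P i) t)

/-- The vectors of heights, for the metrics `ψ_1, …, ψ_m`, of the coprime vectors of polynomials with
values in `V`. -/
def heights {N m : ℕ} (V : Set (Fin N → ℂ)) (ψ : Fin m → (Fin N → ℂ) → ℝ) : Set (Fin m → ℝ) :=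
  {x | ∃ (k : ℕ) (P : Fin N → MvPolynomial (Fin k) ℤ), Coprime P ∧
    (∀ t, (fun i => value (P i) t) ∈ V) ∧ ∀ j, x j = height (ψ j) P}

/-- The value `Φ (c_1, …, c_N, conj c_1, …, conj c_N)`. -/
def hermitian {N : ℕ} (Φ : MvPolynomial (Fin N ⊕ Fin N) ℤ) (c : Fin N → ℂ) : ℂ :=
  MvPolynomial.eval₂ (Int.castRingHom ℂ) (Sum.elim c fun i => (starRingEnd ℂ) (c i)) Φ

/-- Homogeneous of degree `d₁` in the first and of degree `d₂` in the last `N` variables. -/
def Bihomogeneous {N : ℕ} (Φ : MvPolynomial (Fin N ⊕ Fin N) ℤ) (d₁ d₂ : ℕ) : Prop :=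
  ∀ s ∈ Φ.support, ∑ i, s (Sum.inl i) = d₁ ∧ ∑ i, s (Sum.inr i) = d₂

/-- The Mahler measures of the polynomials `F` with `|F| = |Φ(P, conj P)|` on the torus for a coprime
vector `P` with values in `V`. -/
def formMeasures {N : ℕ} (Φ : MvPolynomial (Fin N ⊕ Fin N) ℤ) (V : Set (Fin N → ℂ)) : Set ℝ :=
  {x | ∃ (k : ℕ) (P : Fin N → MvPolynomial (Fin k) ℤ) (F : MvPolynomial (Fin k) ℤ), Coprime P ∧
    (∀ t, (fun i => value (P i) t) ∈ V) ∧
    (∀ t, ‖value F t‖ = ‖hermitian Φ fun i => value (P i) t‖) ∧ x = mahler F}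

/-- The value of a matrix of polynomials. -/
def valueMatrix {k r s : ℕ} (A : Matrix (Fin r) (Fin s) (MvPolynomial (Fin k) ℤ))
    (t : Fin k → ℝ) : Matrix (Fin r) (Fin s) ℂ := A.map fun p => value p t

/-- The Mahler measures of the traces of the square matrices (of any size) with coprime entries,
whose values are complex multiples of positive semidefinite matrices. -/
def traces : Set ℝ :=
  {x | ∃ (n k : ℕ) (A : Matrix (Fin n) (Fin n) (MvPolynomial (Fin k) ℤ)),
    Coprime (fun p : Fin n × Fin n => A p.1 p.2) ∧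
    (∀ t, ∃ z : ℂ, z ≠ 0 ∧ (z • valueMatrix A t).PosSemidef) ∧ x = mahler A.trace}

/-- The Mahler measures of the sums of any number of Hermitian squares of coprime polynomials. -/
def squares : Set ℝ :=
  {x | ∃ (k N : ℕ) (P : Fin N → MvPolynomial (Fin k) ℤ) (F : MvPolynomial (Fin k) ℤ), Coprime P ∧
    (∀ t, ‖value F t‖ = ∑ i, ‖value (P i) t‖ ^ 2) ∧ x = mahler F}

/-- `exp ∫ log det (A A*)`, the square of the Fuglede-Kadison determinant. -/
def gram {k r s : ℕ} (A : Matrix (Fin r) (Fin s) (MvPolynomial (Fin k) ℤ)) : ℝ :=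
  Real.exp (∫ t in Set.Icc (0 : Fin k → ℝ) 1,
    Real.log ‖(valueMatrix A t * (valueMatrix A t).conjTranspose).det‖)

theorem result :
    (∀ (N m : ℕ) (V : Set (Fin N → ℂ)) (ψ : Fin m → (Fin N → ℂ) → ℝ), IsCone V →
      (∀ j, IsMetric (ψ j)) → IsClosed (heights V ψ)) ∧
    (∀ (N d₁ d₂ : ℕ) (V : Set (Fin N → ℂ)) (Φ : MvPolynomial (Fin N ⊕ Fin N) ℤ), IsCone V →
      Bihomogeneous Φ d₁ d₂ → 0 < d₁ + d₂ → (∀ c ∈ V, c ≠ 0 → hermitian Φ c ≠ 0) →
      (∀ (k : ℕ) (P : Fin N → MvPolynomial (Fin k) ℤ), ∃ F : MvPolynomial (Fin k) ℤ,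
        ∀ t, ‖value F t‖ = ‖hermitian Φ fun i => value (P i) t‖) ∧
      formMeasures Φ V ⊆ boyd ∧ IsClosed (formMeasures Φ V) ∧
      ∀ B : ℝ, ∃ m : ℕ, ∀ x ∈ derivedSet^[m] (formMeasures Φ V), B ≤ x) ∧
    (traces ⊆ boyd ∧ IsClosed traces ∧ (∀ x ∈ traces, x = 1 ∨ 2 ≤ x) ∧
      ∀ B : ℝ, ∃ m : ℕ, ∀ x ∈ derivedSet^[m] traces, B ≤ x) ∧
    (squares ⊆ traces ∧ IsClosed squares) ∧
    squares = {x | ∃ (k r s : ℕ) (A : Matrix (Fin r) (Fin s) (MvPolynomial (Fin k) ℤ)),
      Coprime (fun f : Fin r ↪o Fin s => (A.submatrix id f).det) ∧ x = gram A} ∧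
    ∀ (k r s : ℕ) (A : Matrix (Fin r) (Fin s) (MvPolynomial (Fin k) ℤ)),
      (∃ f : Fin r ↪o Fin s, (A.submatrix id f).det ≠ 0) →
      ∃ D : MvPolynomial (Fin k) ℤ, ∃ q ∈ squares, D ≠ 0 ∧
        (∀ f : Fin r ↪o Fin s, D ∣ (A.submatrix id f).det) ∧
        (∀ R, (∀ f : Fin r ↪o Fin s, R ∣ (A.submatrix id f).det) → R ∣ D) ∧
        gram A = mahler D ^ 2 * q := by
  have hT : traces = Pool.Agent.T9h56.SQ.TT := by
    ext x
    constructor
    · rintro ⟨n, k, A, h⟩
      exact ⟨n, k, A, h⟩
    · rintro ⟨n, k, A, h⟩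
      exact ⟨n, k, A, h⟩
  have hQ : squares = Pool.Agent.T9h56.SQ.QQ := Pool.Agent.T9h56.SQ.QC_eq
  refine ⟨fun N m V ψ hV hψ => ?_, fun N d₁ d₂ V Φ hV hΦ hd hani => ?_, ?_, ?_, ?_, ?_⟩
  · have h := Pool.Agent.T9h56.SQ.Spectrum'_eq V hV ψ hψ
    have h2 : heights V ψ = Pool.Agent.T9h56.SQ.Spectrum V ψ := h
    rw [h2]
    exact Pool.Agent.T9h56.SQ.closed_Spectrum V hV ψ hψ
  · have h := Pool.Agent.T9h56.SQ.FormSet'_eq hΦ V hV hani
    have h2 : formMeasures Φ V = Pool.Agent.T9h56.SQ.FormSet Φ V := h
    rw [h2]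
    exact ⟨fun k P => Pool.Agent.T9h56.SQ.exists_poly hΦ P,
      Pool.Agent.T9h56.SQ.FormSet_BB hani,
      Pool.Agent.T9h56.SQ.closed_FormSet hΦ hd V hV hani,
      Pool.Agent.T9h56.SQ.rank_FormSet hΦ hd V hV hani⟩
  · rw [hT]
    exact ⟨Pool.Agent.T9h56.SQ.TT_BB, Pool.Agent.T9h56.SQ.closed_TT,
      fun x hx => Pool.Agent.T9h56.SQ.gap_TT hx, Pool.Agent.T9h56.SQ.rank_TT⟩
  · rw [hT, hQ]
    exact ⟨Pool.Agent.T9h56.SQ.QQ_subset_TT, Pool.Agent.T9h56.SQ.closed_QQ⟩
  · rw [hQ]
    exact Pool.Agent.T9h56.SQ.GC_eq.symm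
  · rw [hQ]
    exact fun k r s A hA => Pool.Agent.T9h56.SQ.gram_main A hA

end

end Pool.Agent.Results.MP_6d22ea_nt.SumsOfHermitianSquares
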